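import Pool.Agent.Work.MP_0d53be_an.Alg

set_option autoImplicit false

namespace Pool.Agent.Results.MP_0d53be_an.AverageVisits

open MeasureTheory Set Filter Topology Pool.Agent.Work.MP_0d53be_an

theorem result {A : Type*} [NonUnitalNormedRing A] [NormedSpace ℂ A] [SMulCommClass ℂ A A]
    [IsScalarTower ℂ A A] (a : A)
    (ha : Tendsto (fun n : ℕ => ‖apow a n‖ ^ (1 / (n : ℝ))) atTop (𝓝 0)) (h2 : a * a ≠ 0) :
    ∃ ε : ℝ, 0 < ε ∧ Tendsto (fun N : ℕ => (∑ n ∈ Finset.range N, (n : ℝ) *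
      volume.real {θ : ℝ | θ ∈ Ioc 0 (2 * Real.pi) ∧
        ‖orb a (Complex.exp (θ * Complex.I)) n - a‖ < ε}) / N) atTop (𝓝 0) :=
  alg_average a h2 ha

end Pool.Agent.Results.MP_0d53be_an.AverageVisits
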