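import Pool.Agent.Work.MP_0d53be_an.Alg

set_option autoImplicit false

namespace Pool.Agent.Results.MP_0d53be_an.DirectionsDim

open MeasureTheory Set Filter Topology Pool.Agent.Work.MP_0d53be_an

theorem result {A : Type*} [NonUnitalNormedRing A] [NormedSpace ℂ A] [SMulCommClass ℂ A A]
    [IsScalarTower ℂ A A] (a : A)
    (ha : Tendsto (fun n : ℕ => ‖apow a n‖ ^ (1 / (n : ℝ))) atTop (𝓝 0))
    (φ : A →L[ℂ] ℂ) (hφ : φ ≠ 0) (C σ : ℝ) (hσ : 0 < σ)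
    (h : ∀ n : ℕ, 1 ≤ n → ‖φ (apow a n)‖ ≤ (C / (n : ℝ) ^ σ) ^ n) :
    dimH {θ : ℝ | Dense {x : A | ∃ n : ℕ, 1 ≤ n ∧
      x = orb a (Complex.exp (θ * Complex.I)) n}} ≤ ENNReal.ofReal (1 / (1 + σ)) :=
  alg_dim a ha φ hφ C σ hσ h

end Pool.Agent.Results.MP_0d53be_an.DirectionsDim
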