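import Pool.Agent.Work.MP_0d53be_an.Full.Final

set_option autoImplicit false

namespace Pool.Agent.Results.MP_0d53be_an.NoWildChaos

open MeasureTheory Pool.Agent.Work.MP_0d53be_an

theorem result {A : Type*} [NonUnitalNormedRing A] [NormedSpace ℂ A] [SMulCommClass ℂ A A]
    [IsScalarTower ℂ A A] [CompleteSpace A] (hA : ¬ FiniteDimensional ℂ A) :
    ¬ Full.WildlyChaotic A ∧
      ∀ a : A, ∀ᵐ θ : ℝ,
        ¬ Dense {x : A | ∃ n : ℕ, 1 ≤ n ∧ x = orb a (Complex.exp (θ * Complex.I)) n} :=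
  ⟨Full.not_wildlyChaotic hA, fun a => Full.ae_not_dense hA a⟩

end Pool.Agent.Results.MP_0d53be_an.NoWildChaos
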